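import Mathlib

set_option autoImplicit false
set_option linter.unusedSectionVars false

open MeasureTheory Set Submodule
open scoped ComplexConjugate InnerProductSpace

namespace Pool.Agent.H238.CompactChars

noncomputable section

variable {Y : Type} [TopologicalSpace Y] [CompactSpace Y] [T2Space Y] [SecondCountableTopology Y]
  [MeasurableSpace Y] [BorelSpace Y] (μ : Measure Y) [IsProbabilityMeasure μ]
  {I : Type} [AddCommGroup I]

/-- A family of continuous functions indexed by an additive group, behaving like the characters of a compact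
group. -/
structure IsChars (e : I → C(Y, ℂ)) : Prop where
  add : ∀ i j y, e (i + j) y = e i y * e j y
  neg : ∀ i y, e (-i) y = conj (e i y)
  zero : ∀ y, e 0 y = 1
  sep : ∀ y z, y ≠ z → ∃ i, e i y ≠ e i z
  int : ∀ i, i ≠ 0 → ∫ y, e i y ∂μ = 0

variable {μ} {e : I → C(Y, ℂ)} (he : IsChars μ e)

/-- the star subalgebra generated -/
def alg : StarSubalgebra ℂ C(Y, ℂ) where
  toSubalgebra := Algebra.adjoin ℂ (range e)
  star_mem' := by
    change Algebra.adjoin ℂ (range e) ≤ star (Algebra.adjoin ℂ (range e))
    refine Algebra.adjoin_le ?_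
    rintro - ⟨n, rfl⟩
    exact Algebra.subset_adjoin ⟨-n, ContinuousMap.ext fun y => he.neg n y⟩

include he in
theorem alg_coe : Subalgebra.toSubmodule (alg he).toSubalgebra = span ℂ (range e) := by
  apply Algebra.adjoin_eq_span_of_subset
  refine Subset.trans ?_ Submodule.subset_span
  intro x hx
  refine Submonoid.closure_induction (fun _ => id) ⟨0, ?_⟩ ?_ hx
  · ext1 z; exact he.zero z
  · rintro - - - - ⟨m, rfl⟩ ⟨n, rfl⟩
    refine ⟨m + n, ?_⟩
    ext1 z
    exact he.add m n z

theorem alg_sep : (alg he).SeparatesPoints := by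
  intro x y hxy
  obtain ⟨i, hi⟩ := he.sep x y hxy
  exact ⟨_, ⟨e i, Algebra.subset_adjoin ⟨i, rfl⟩, rfl⟩, hi⟩

include he in
theorem span_closure : (span ℂ (range e)).topologicalClosure = ⊤ := by
  rw [← alg_coe he]
  have h := ContinuousMap.starSubalgebra_topologicalClosure_eq_top_of_separatesPoints (alg he)
    (alg_sep he)
  exact congr_arg (Subalgebra.toSubmodule <| StarSubalgebra.toSubalgebra ·) h

/-- the characters as elements of `L²` -/
def v (μ : Measure Y) [IsProbabilityMeasure μ] (e : I → C(Y, ℂ)) (i : I) : Lp ℂ 2 μ :=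
  ContinuousMap.toLp 2 μ ℂ (e i)

include he in
theorem norm_sq (i : I) (y : Y) : e i y * conj (e i y) = 1 := by
  rw [← he.neg, ← he.add, add_neg_cancel, he.zero]

include he in
theorem inner_v (i j : I) : ⟪v μ e i, v μ e j⟫_ℂ = ∫ y, e (j - i) y ∂μ := by
  rw [v, v, ContinuousMap.inner_toLp]
  congr 1
  ext y
  rw [sub_eq_add_neg, he.add, he.neg]

include he in
theorem orthonormal_v [DecidableEq I] : Orthonormal ℂ (v μ e) := by
  rw [orthonormal_iff_ite]
  intro i j
  rw [inner_v he]
  split_ifs with h
  · subst h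
    rw [sub_self]
    have : (fun y => e 0 y) = fun _ => (1 : ℂ) := by ext y; exact he.zero y
    rw [this]; simp
  · exact he.int _ (fun h' => h (sub_eq_zero.mp h').symm)

include he in
theorem span_v_closure : (span ℂ (range (v μ e))).topologicalClosure = ⊤ := by
  have h1 := (ContinuousMap.toLp_denseRange ℂ μ (p := 2) ℂ (by simp)).topologicalClosure_map_submodule
      (span_closure he)
  have h2 : span ℂ (range (v μ e)) =
      Submodule.map ((ContinuousMap.toLp 2 μ ℂ : C(Y, ℂ) →L[ℂ] Lp ℂ 2 μ) : C(Y, ℂ) →ₗ[ℂ] Lp ℂ 2 μ)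
        (span ℂ (range e)) := by
    rw [Submodule.map_span]
    congr 1
    ext g
    constructor
    · rintro ⟨i, rfl⟩; exact ⟨e i, ⟨i, rfl⟩, rfl⟩
    · rintro ⟨_, ⟨i, rfl⟩, rfl⟩; exact ⟨i, rfl⟩
  rw [h2]
  exact h1

theorem inner_v_memLp {F : Y → ℂ} (hF : MemLp F 2 μ) (i : I) :
    ⟪v μ e i, hF.toLp F⟫_ℂ = ∫ y, F y * conj (e i y) ∂μ := by
  rw [MeasureTheory.L2.inner_def]
  apply integral_congr_ae
  have h1 := hF.coeFn_toLp
  have h2 : (v μ e i : Y → ℂ) =ᵐ[μ] e i := ContinuousMap.coeFn_toLp μ (e i)
  filter_upwards [h1, h2] with y h1 h2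
  rw [h1, h2]
  simp

include he in
/-- Bessel: a coefficient taken at infinitely many characters is zero. -/
theorem coeff_zero {F : Y → ℂ} (hF : MemLp F 2 μ) (κ : ℂ) (S : ℕ → I) (hS : Function.Injective S)
    (h : ∀ n, ∫ y, F y * conj (e (S n) y) ∂μ = κ) : κ = 0 := by
  classical
  have h1 := ((orthonormal_v he).comp S hS).inner_products_summable (hF.toLp F)
  have h2 : (fun n => ‖⟪(v μ e ∘ S) n, hF.toLp F⟫_ℂ‖ ^ 2) = fun _ => ‖κ‖ ^ 2 := by
    ext n
    rw [Function.comp, inner_v_memLp, h n]
  rw [h2, summable_const_iff] at h1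
  simpa using h1

include he in
/-- a function with no non-trivial coefficient is constant -/
theorem const_of_coeff {F : Y → ℂ} (hF : MemLp F 2 μ)
    (h : ∀ i, i ≠ 0 → ∫ y, F y * conj (e i y) ∂μ = 0) : ∃ c : ℂ, F =ᵐ[μ] fun _ => c := by
  classical
  set c : ℂ := ∫ y, F y ∂μ with hc
  refine ⟨c, ?_⟩
  have hc1 : MemLp (fun _ : Y => c) 2 μ := memLp_const c
  have hG : MemLp (fun y => F y - c) 2 μ := hF.sub hc1
  have horth : ∀ i, ⟪v μ e i, hG.toLp (fun y => F y - c)⟫_ℂ = 0 := by
    intro i
    rw [inner_v_memLp]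
    have hFi : Integrable (fun y => F y * conj (e i y)) μ := by
      have : Integrable F μ := hF.integrable (by norm_num)
      refine this.mul_bdd (c := 1) ?_ ?_
      · exact ((Complex.continuous_conj.comp (e i).continuous).aestronglyMeasurable)
      · filter_upwards with y
        have := norm_sq he i y
        have h2 := congrArg norm this
        rw [norm_mul, RCLike.norm_conj, norm_one] at h2
        rw [RCLike.norm_conj]
        nlinarith [norm_nonneg (e i y)]
    have hci : Integrable (fun y => c * conj (e i y)) μ := by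
      refine Integrable.const_mul ?_ c
      exact (Complex.continuous_conj.comp (e i).continuous).integrable_of_hasCompactSupport
        (HasCompactSupport.of_compactSpace _)
    have : (fun y => (F y - c) * conj (e i y)) = fun y => F y * conj (e i y) - c * conj (e i y) := by
      ext y; ring
    rw [this, integral_sub hFi hci, integral_const_mul]
    have h3 : ∫ y, conj (e i y) ∂μ = ∫ y, e (-i) y ∂μ := by
      congr 1; ext y; rw [he.neg]
    rw [h3]
    by_cases hi : i = 0
    · subst hi
      have h4 : ∀ y, e (-0) y = 1 := by intro y; rw [neg_zero]; exact he.zero y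
      simp only [h4, he.zero, map_one, mul_one]
      simp [hc]
    · rw [h i hi, he.int (-i) (neg_ne_zero.mpr hi)]; simp
  have hz : hG.toLp (fun y => F y - c) = 0 := by
    have hmem : hG.toLp (fun y => F y - c) ∈ (span ℂ (range (v μ e)))ᗮ := by
      rw [Submodule.mem_orthogonal]
      intro u hu
      induction hu using Submodule.span_induction with
      | mem x hx => obtain ⟨i, rfl⟩ := hx; exact horth i
      | zero => simp
      | add x y _ _ hx hy => rw [inner_add_left, hx, hy, add_zero]
      | smul a x _ hx => rw [inner_smul_left, hx, mul_zero]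
    rw [← Submodule.orthogonal_closure, span_v_closure he, Submodule.top_orthogonal_eq_bot] at hmem
    simpa using hmem
  have h5 := hG.coeFn_toLp
  rw [hz] at h5
  have h6 := Lp.coeFn_zero ℂ 2 μ
  filter_upwards [h5, h6] with y h5 h6
  rw [h6] at h5
  have : F y - c = 0 := by simpa using h5.symm
  exact sub_eq_zero.mp this

end

end Pool.Agent.H238.CompactChars
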