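import Pool.Agent.H238.CompactChars

set_option autoImplicit false
set_option linter.unusedSectionVars false

open MeasureTheory Set
open scoped ComplexConjugate

namespace Pool.Agent.H238.DualGroup

noncomputable section

/-- The Pontryagin dual of the discrete abelian group `M`, as a subgroup of the group of all functions
`M → Circle`. -/
def dual (M : Type) [AddCommGroup M] : Subgroup (M → Circle) where
  carrier := {x | ∀ a b, x (a + b) = x a * x b}
  mul_mem' := by
    intro x y hx hy a b
    simp only [Pi.mul_apply, hx a b, hy a b]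
    exact mul_mul_mul_comm _ _ _ _
  one_mem' := by intro a b; simp
  inv_mem' := by
    intro x hx a b
    simp only [Pi.inv_apply, hx a b]
    exact mul_inv _ _

/-- The dual group with the topology of pointwise convergence. -/
abbrev X (M : Type) [AddCommGroup M] : Type := ↥(dual M)

instance (M : Type) [AddCommGroup M] : MeasurableSpace (X M) := borel _
instance (M : Type) [AddCommGroup M] : BorelSpace (X M) := ⟨rfl⟩

theorem dual_closed (M : Type) [AddCommGroup M] : IsClosed (dual M : Set (M → Circle)) := by
  have : (dual M : Set (M → Circle)) = ⋂ a, ⋂ b, {x | x (a + b) = x a * x b} := by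
    ext x; simp [dual]
  rw [this]
  refine isClosed_iInter fun a => isClosed_iInter fun b => isClosed_eq ?_ ?_
  · exact continuous_apply _
  · exact (continuous_apply a).mul (continuous_apply b)

instance (M : Type) [AddCommGroup M] : CompactSpace (X M) :=
  isCompact_iff_compactSpace.mp (dual_closed M).isCompact

/-- Normalised Haar measure on the dual group. -/
def ν (M : Type) [AddCommGroup M] : Measure (X M) :=
  Measure.haarMeasure (⊤ : TopologicalSpace.PositiveCompacts (X M))

instance (M : Type) [AddCommGroup M] : (ν M).IsHaarMeasure := by unfold ν; infer_instance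

instance (M : Type) [AddCommGroup M] : IsProbabilityMeasure (ν M) := by
  constructor
  have := Measure.haarMeasure_self (K₀ := (⊤ : TopologicalSpace.PositiveCompacts (X M)))
  rw [TopologicalSpace.PositiveCompacts.coe_top] at this
  exact this

variable {M : Type} [AddCommGroup M]

theorem X_add (x : X M) (a b : M) : x.1 (a + b) = x.1 a * x.1 b := x.2 a b

theorem X_zero (x : X M) : x.1 0 = 1 := by
  have := x.2 0 0
  rw [add_zero] at this
  exact (mul_eq_left.mp this.symm)

theorem X_neg (x : X M) (a : M) : x.1 (-a) = (x.1 a)⁻¹ := by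
  have := x.2 a (-a)
  rw [add_neg_cancel, X_zero] at this
  exact eq_inv_of_mul_eq_one_right this.symm

theorem X_sub (x : X M) (a b : M) : x.1 (a - b) = x.1 a * (x.1 b)⁻¹ := by
  rw [sub_eq_add_neg, X_add, X_neg]

/-- Characters separate the points of `M`. -/
theorem exists_ne_one {a : M} (ha : a ≠ 0) : ∃ x : X M, x.1 a ≠ 1 := by
  obtain ⟨c, hc⟩ := CharacterModule.exists_character_apply_ne_zero_of_ne_zero ha
  -- c : M →+ AddCircle (1 : ℚ)
  let φ : AddCircle (1 : ℚ) →+ AddCircle (1 : ℝ) :=
    QuotientAddGroup.map _ _ (algebraMap ℚ ℝ).toAddMonoidHom (by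
      intro q hq
      rw [AddSubgroup.mem_zmultiples_iff] at hq
      obtain ⟨k, rfl⟩ := hq
      rw [AddSubgroup.mem_comap, AddSubgroup.mem_zmultiples_iff]
      exact ⟨k, by simp⟩)
  have hφ : ∀ z, φ z = 0 → z = 0 := by
    intro z
    induction z using QuotientAddGroup.induction_on with
    | H q =>
      intro h
      have h' : (((algebraMap ℚ ℝ q : ℝ)) : AddCircle (1 : ℝ)) = 0 := h
      rw [QuotientAddGroup.eq_zero_iff, AddSubgroup.mem_zmultiples_iff] at h'
      obtain ⟨k, hk⟩ := h'
      rw [QuotientAddGroup.eq_zero_iff, AddSubgroup.mem_zmultiples_iff]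
      refine ⟨k, ?_⟩
      have : ((k : ℚ) : ℝ) = (q : ℝ) := by
        have h3 : algebraMap ℚ ℝ q = (q : ℝ) := rfl
        rw [← h3, ← hk]; simp
      have h2 : (k : ℚ) = q := by exact_mod_cast this
      simpa using h2
  refine ⟨⟨fun m => AddCircle.toCircle (φ (c m)), ?_⟩, ?_⟩
  · intro m m'
    simp only
    rw [map_add, map_add, AddCircle.toCircle_add]
  · simp only
    intro h
    apply hc
    apply hφ
    have h0 : AddCircle.toCircle (0 : AddCircle (1 : ℝ)) = 1 := AddCircle.toCircle_zero
    exact AddCircle.injective_toCircle (by norm_num) (h.trans h0.symm)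

/-- evaluation at `m` as a continuous function -/
def ev (m : M) : C(X M, ℂ) :=
  ⟨fun x => ((x.1 m : Circle) : ℂ),
    continuous_subtype_val.comp ((continuous_apply m).comp continuous_subtype_val)⟩

@[simp] theorem ev_apply (m : M) (x : X M) : ev m x = ((x.1 m : Circle) : ℂ) := rfl

/-- evaluation at a pair -/
def ev2 (i : M × M) : C(X M × X M, ℂ) :=
  ⟨fun p => ((p.1.1 i.1 : Circle) : ℂ) * ((p.2.1 i.2 : Circle) : ℂ), by
    apply Continuous.mul
    · exact (ev i.1).continuous.comp continuous_fst
    · exact (ev i.2).continuous.comp continuous_snd⟩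

@[simp] theorem ev2_apply (i : M × M) (p : X M × X M) :
    ev2 i p = ((p.1.1 i.1 : Circle) : ℂ) * ((p.2.1 i.2 : Circle) : ℂ) := rfl

theorem int_ev (m : M) (hm : m ≠ 0) : ∫ x, ev m x ∂(ν M) = 0 := by
  obtain ⟨y, hy⟩ := exists_ne_one hm
  have h := integral_mul_left_eq_self (μ := ν M) (fun x => ev m x) y
  have h2 : ∀ x, ev m (y * x) = ((y.1 m : Circle) : ℂ) * ev m x := by
    intro x; simp
  simp only [h2] at h
  rw [integral_const_mul] at h
  have h3 : (((y.1 m : Circle) : ℂ) - 1) * ∫ x, ev m x ∂(ν M) = 0 := by
    rw [sub_mul, one_mul]; rw [h]; ring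
  rcases mul_eq_zero.mp h3 with h4 | h4
  · exfalso; apply hy
    have : ((y.1 m : Circle) : ℂ) = 1 := sub_eq_zero.mp h4
    exact Circle.coe_eq_one.mp this
  · exact h4

theorem isChars_ev : CompactChars.IsChars (ν M) (ev : M → C(X M, ℂ)) where
  add := by intro i j y; simp [X_add]
  neg := by intro i y; rw [ev_apply, X_neg, Circle.coe_inv_eq_conj]; rfl
  zero := by intro y; simp [X_zero]
  sep := by
    intro y z hyz
    by_contra hcon
    push Not at hcon
    apply hyz
    apply Subtype.ext
    funext m
    have := hcon m
    simp only [ev_apply] at this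
    exact Circle.ext this
  int := int_ev

variable [Countable M]

instance : SecondCountableTopology (X M) := by
  have : SecondCountableTopology (M → Circle) := inferInstance
  exact TopologicalSpace.Subtype.secondCountableTopology (dual M : Set (M → Circle))

theorem int_ev2 (i : M × M) (hi : i ≠ 0) : ∫ p, ev2 i p ∂((ν M).prod (ν M)) = 0 := by
  have : (fun p : X M × X M => ev2 i p) = fun p => ev i.1 p.1 * ev i.2 p.2 := by
    ext p; simp
  rw [this, integral_prod_mul]
  have h : i.1 ≠ 0 ∨ i.2 ≠ 0 := by
    by_contra hcon
    push Not at hcon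
    exact hi (Prod.ext hcon.1 hcon.2)
  rcases h with h | h
  · rw [int_ev _ h, zero_mul]
  · rw [int_ev _ h, mul_zero]

theorem isChars_ev2 : CompactChars.IsChars ((ν M).prod (ν M)) (ev2 : M × M → C(X M × X M, ℂ)) where
  add := by intro i j y; simp [X_add]; ring
  neg := by
    intro i y
    rw [ev2_apply, Prod.fst_neg, Prod.snd_neg, X_neg, X_neg, Circle.coe_inv_eq_conj,
      Circle.coe_inv_eq_conj, ev2_apply, map_mul]
  zero := by intro y; simp [X_zero]
  sep := by
    intro y z hyz
    by_contra hcon
    push Not at hcon
    apply hyz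
    apply Prod.ext
    · apply Subtype.ext
      funext m
      have := hcon (m, 0)
      simp only [ev2_apply, X_zero, Circle.coe_one, mul_one] at this
      exact Circle.ext this
    · apply Subtype.ext
      funext m
      have := hcon (0, m)
      simp only [ev2_apply, X_zero, Circle.coe_one, one_mul] at this
      exact Circle.ext this
  int := int_ev2

end

end Pool.Agent.H238.DualGroup
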