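import Pool.Agent.H137R2.PFR.Basic

set_option autoImplicit false
set_option linter.unusedSectionVars false

/-! Shannon entropy of finite valued functions on a probability space. -/

open MeasureTheory Filter Topology
open scoped Classical

namespace Pool.Agent.H238.EntM

open H137.PFR

noncomputable section

variable {X : Type} [MeasurableSpace X] (μ : Measure X)

/-- all fibres are measurable -/
def Mb {S : Type} (f : X → S) : Prop := ∀ s, MeasurableSet (f ⁻¹' {s})

/-- Shannon entropy -/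
def Hm {S : Type} [Fintype S] (f : X → S) : ℝ := ∑ s, Real.negMulLog (μ.real (f ⁻¹' {s}))

variable {μ}

theorem Mb.prod {S T : Type} {f : X → S} {g : X → T} (hf : Mb f) (hg : Mb g) :
    Mb (fun x => (f x, g x)) := by
  rintro ⟨s, t⟩
  have : (fun x => (f x, g x)) ⁻¹' {(s, t)} = f ⁻¹' {s} ∩ g ⁻¹' {t} := by
    ext x; simp [Prod.ext_iff]
  rw [this]; exact (hf s).inter (hg t)

theorem Mb.preim {S : Type} [Finite S] {f : X → S} (hf : Mb f) (A : Set S) :
    MeasurableSet (f ⁻¹' A) := by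
  have : f ⁻¹' A = ⋃ s ∈ A, f ⁻¹' {s} := by ext x; simp
  rw [this]
  exact MeasurableSet.biUnion (Set.to_countable A) fun s _ => hf s

theorem Mb.map {S T : Type} [Finite S] {f : X → S} (hf : Mb f) (φ : S → T) :
    Mb (fun x => φ (f x)) := fun t => hf.preim (φ ⁻¹' {t})

theorem Mb.comp {S : Type} {f : X → S} (hf : Mb f) {T : X → X} (hT : Measurable T) :
    Mb (fun x => f (T x)) := fun s => hT (hf s)

theorem Mb.pi {ι : Type} [Countable ι] {S : Type} {f : X → ι → S}
    (hf : ∀ i, Mb (fun x => f x i)) : Mb f := by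
  intro s
  have : f ⁻¹' {s} = ⋂ i, (fun x => f x i) ⁻¹' {s i} := by
    ext x; simp [funext_iff]
  rw [this]
  exact MeasurableSet.iInter fun i => hf i (s i)

variable [IsProbabilityMeasure μ]

/-- law of a finite valued function -/
def lawOf (μ : Measure X) {S : Type} (f : X → S) : S → ℝ := fun s => μ.real (f ⁻¹' {s})

theorem law_lawOf {S : Type} [Fintype S] {f : X → S} (hf : Mb f) : Law (lawOf μ f) := by
  refine ⟨fun s => measureReal_nonneg, ?_⟩
  unfold lawOf
  rw [sum_measureReal_preimage_singleton _ (fun s _ => hf s)]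
  simp

theorem Hm_eq_H {S T : Type} [Fintype S] [Fintype T] {f : X → S} (hf : Mb f) (φ : S → T) :
    Hm μ (fun x => φ (f x)) = H (lawOf μ f) φ := by
  unfold Hm H ent
  apply Finset.sum_congr rfl
  intro t _
  congr 1
  unfold push lawOf
  rw [← Finset.sum_filter, sum_measureReal_preimage_singleton _ (fun s _ => hf s)]
  congr 1
  ext x; simp

theorem Hm_comp_le {S T : Type} [Fintype S] [Fintype T] {f : X → S} (hf : Mb f) (φ : S → T) :
    Hm μ (fun x => φ (f x)) ≤ Hm μ f := by
  have h1 := Hm_eq_H (μ := μ) hf φ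
  have h2 := Hm_eq_H (μ := μ) hf (fun s => s)
  rw [h1]
  have h3 : Hm μ f = H (lawOf μ f) fun s => s := h2
  rw [h3]
  exact H_comp_le (law_lawOf hf) (fun s => s) φ

theorem Hm_congr {S : Type} [Fintype S] {f g : X → S} (h : ∀ᵐ x ∂μ, f x = g x) : Hm μ f = Hm μ g := by
  unfold Hm
  apply Finset.sum_congr rfl
  intro s _
  congr 1
  apply measureReal_congr
  filter_upwards [h] with x hx
  apply propext
  show f x = s ↔ g x = s
  rw [hx]

theorem Hm_le {S T : Type} [Fintype S] [Fintype T] {f : X → S} {g : X → T} {Y : Set X}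
    (hY : ∀ᵐ x ∂μ, x ∈ Y) (hf : Mb f) (h : ∀ x ∈ Y, ∀ y ∈ Y, f x = f y → g x = g y) :
    Hm μ g ≤ Hm μ f := by
  have hne : Nonempty X := by
    by_contra hcon
    rw [not_nonempty_iff] at hcon
    have := measure_univ (μ := μ)
    rw [Set.univ_eq_empty_iff.mpr hcon, measure_empty] at this
    exact zero_ne_one this
  obtain ⟨x₀⟩ := hne
  let φ : S → T := fun s => if hs : ∃ x ∈ Y, f x = s then g hs.choose else g x₀
  have h1 : ∀ᵐ x ∂μ, g x = φ (f x) := by
    filter_upwards [hY] with x hx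
    have hs : ∃ y ∈ Y, f y = f x := ⟨x, hx, rfl⟩
    show g x = if hs : ∃ y ∈ Y, f y = f x then g hs.choose else g x₀
    rw [dif_pos hs]
    exact h x hx _ hs.choose_spec.1 hs.choose_spec.2.symm
  rw [Hm_congr h1]
  exact Hm_comp_le hf φ

theorem Hm_submod {S T U V : Type} [Fintype S] [Fintype T] [Fintype U] [Fintype V]
    {a : X → S} {b : X → T} {c : X → U} {d : X → V} {Y : Set X} (hY : ∀ᵐ x ∂μ, x ∈ Y)
    (ha : Mb a) (hb : Mb b) (hd : Mb d)
    (hc : ∀ x ∈ Y, ∀ y ∈ Y, a x = a y → b x = b y → c x = c y)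
    (hda : ∀ x ∈ Y, ∀ y ∈ Y, a x = a y → d x = d y)
    (hdb : ∀ x ∈ Y, ∀ y ∈ Y, b x = b y → d x = d y) :
    Hm μ c + Hm μ d ≤ Hm μ a + Hm μ b := by
  let W : X → S × T × V := fun x => (a x, b x, d x)
  have hW : Mb W := ha.prod (hb.prod hd)
  have h0 := H_submod (law_lawOf (μ := μ) hW) (fun w => w.1) (fun w => w.2.1) (fun w => w.2.2)
  rw [← Hm_eq_H hW, ← Hm_eq_H hW, ← Hm_eq_H hW, ← Hm_eq_H hW] at h0
  have h1 : Hm μ c ≤ Hm μ (fun x => (a x, b x, d x)) := by
    apply Hm_le hY hW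
    intro x hx y hy hxy
    simp only [W, Prod.mk.injEq] at hxy
    exact hc x hx y hy hxy.1 hxy.2.1
  have h2 : Hm μ (fun x => (a x, d x)) ≤ Hm μ a := by
    apply Hm_le hY ha
    intro x hx y hy hxy
    rw [hxy, hda x hx y hy hxy]
  have h3 : Hm μ (fun x => (b x, d x)) ≤ Hm μ b := by
    apply Hm_le hY hb
    intro x hx y hy hxy
    rw [hxy, hdb x hx y hy hxy]
  have h0' : Hm μ (fun x => (a x, b x, d x)) + Hm μ d ≤
      Hm μ (fun x => (a x, d x)) + Hm μ (fun x => (b x, d x)) := h0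
  linarith

theorem Hm_mp {S : Type} [Fintype S] {f : X → S} (hf : Mb f) {T : X → X}
    (hT : MeasurePreserving T μ μ) : Hm μ (fun x => f (T x)) = Hm μ f := by
  unfold Hm
  apply Finset.sum_congr rfl
  intro s _
  congr 1
  exact hT.measureReal_preimage (hf s).nullMeasurableSet

theorem Hm_tendsto {S : Type} [Fintype S] {f : ℕ → X → S} {g : X → S} (hf : ∀ m, Mb (f m))
    (hg : Mb g) (h : Tendsto (fun m => μ.real {x | f m x ≠ g x}) atTop (𝓝 0)) :
    Tendsto (fun m => Hm μ (f m)) atTop (𝓝 (Hm μ g)) := by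
  unfold Hm
  apply tendsto_finsetSum
  intro s _
  apply (Real.continuous_negMulLog.tendsto _).comp
  rw [tendsto_iff_dist_tendsto_zero]
  refine squeeze_zero (fun _ => dist_nonneg) ?_ h
  intro m
  rw [Real.dist_eq]
  refine (abs_measureReal_sub_le_measureReal_symmDiff (hf m s).nullMeasurableSet (hg s).nullMeasurableSet).trans ?_
  apply measureReal_mono
  · intro x hx
    rcases hx with ⟨h1, h2⟩ | ⟨h1, h2⟩
    · intro h3; exact h2 (h3.symm.trans h1)
    · intro h3; exact h2 (h3.trans h1)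
  · exact measure_ne_top _ _

theorem Hm_nonneg {S : Type} [Fintype S] (f : X → S) : 0 ≤ Hm μ f :=
  Finset.sum_nonneg fun _ _ => Real.negMulLog_nonneg measureReal_nonneg measureReal_le_one

end

end Pool.Agent.H238.EntM
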