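import Mathlib

set_option autoImplicit false

/-! Finite subsets of a free group: forests and trees. -/

namespace Pool.Agent.H238.FGTree

open FreeGroup

variable {n : ℕ}

theorem of_eq (i : Fin n) : (of i : FreeGroup (Fin n)) = mk [(i, true)] := rfl

theorem of_inv (i : Fin n) : (of i : FreeGroup (Fin n))⁻¹ = mk [(i, false)] := rfl

theorem mk_inv (p : Fin n × Bool) : (mk [p] : FreeGroup (Fin n))⁻¹ = mk [(p.1, !p.2)] := rfl

theorem head_of_le {x : FreeGroup (Fin n)} {p : Fin n × Bool} (h : norm (mk [p] * x) ≤ norm x) :
    ∃ tl, x.toWord = (p.1, !p.2) :: tl := by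
  have h1 : (mk [p] * x).toWord = reduce (p :: x.toWord) := by
    rw [toWord_mul]
    congr 1
  unfold FreeGroup.norm at h
  rw [h1, reduce.cons, reduce_toWord] at h
  cases hx : x.toWord with
  | nil => rw [hx] at h; simp at h
  | cons hd tl =>
    rw [hx] at h
    simp only at h
    split_ifs at h with hc
    · refine ⟨tl, ?_⟩
      congr 1
      apply Prod.ext
      · exact hc.1.symm
      · show hd.2 = !p.2
        rw [hc.2, Bool.not_not]
    · simp at h

theorem unique_letter {g : FreeGroup (Fin n)} {p q : Fin n × Bool}
    (hp : norm (g * mk [p]) ≤ norm g) (hq : norm (g * mk [q]) ≤ norm g) : p = q := by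
  have key : ∀ p : Fin n × Bool, norm (g * mk [p]) ≤ norm g → ∃ tl, (g⁻¹).toWord = p :: tl := by
    intro p hp
    have h1 : norm (mk [(p.1, !p.2)] * g⁻¹) ≤ norm g⁻¹ := by
      rw [← mk_inv, ← mul_inv_rev, norm_inv_eq, norm_inv_eq]
      exact hp
    obtain ⟨tl, htl⟩ := head_of_le h1
    refine ⟨tl, ?_⟩
    rw [htl]
    simp
  obtain ⟨t1, h1⟩ := key p hp
  obtain ⟨t2, h2⟩ := key q hq
  rw [h1] at h2
  exact (List.cons.inj h2).1

theorem exists_parent {g : FreeGroup (Fin n)} {r : ℕ} (hg : norm g = r + 1) :
    ∃ p : Fin n × Bool, norm (g * mk [p]) ≤ r := by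
  cases hx : (g⁻¹).toWord with
  | nil =>
    have : norm g⁻¹ = 0 := by unfold FreeGroup.norm; rw [hx]; rfl
    rw [norm_inv_eq] at this
    omega
  | cons hd tl =>
    refine ⟨hd, ?_⟩
    have h1 : g⁻¹ = mk [hd] * mk tl := by
      rw [← mk_toWord (x := g⁻¹), hx]; rfl
    have h2 : (g * mk [hd])⁻¹ = mk tl := by
      rw [mul_inv_rev, h1, inv_mul_cancel_left]
    rw [← norm_inv_eq, h2]
    refine norm_mk_le.trans ?_
    have : norm g⁻¹ = tl.length + 1 := by unfold FreeGroup.norm; rw [hx]; rfl
    rw [norm_inv_eq] at this
    omega

/-- number of edges in direction `i` -/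
def edges (E : Finset (FreeGroup (Fin n))) (i : Fin n) : ℕ := (E.filter fun y => y * of i ∈ E).card

theorem edges_insert {E : Finset (FreeGroup (Fin n))} {g : FreeGroup (Fin n)} (hg : g ∉ E) (i : Fin n) :
    edges (insert g E) i = edges E i + ((if g * mk [(i, true)] ∈ E then 1 else 0) +
      (if g * mk [(i, false)] ∈ E then 1 else 0)) := by
  unfold edges
  rw [Finset.card_filter, Finset.card_filter, Finset.sum_insert hg]
  have h1 : ∀ y ∈ E, (if y * of i ∈ insert g E then 1 else 0) =
      (if y * of i ∈ E then 1 else 0) + (if y = g * mk [(i, false)] then 1 else 0) := by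
    intro y _
    have h2 : y * of i = g ↔ y = g * mk [(i, false)] := by
      rw [← of_inv]; exact eq_mul_inv_iff_mul_eq.symm
    by_cases h3 : y * of i = g
    · have h4 : y * of i ∉ E := by rw [h3]; exact hg
      rw [if_pos (by rw [h3]; exact Finset.mem_insert_self _ _), if_neg h4, if_pos (h2.mp h3)]
    · have h5 : y * of i ∈ insert g E ↔ y * of i ∈ E := by
        rw [Finset.mem_insert]
        exact ⟨fun h => h.resolve_left h3, Or.inr⟩
      rw [if_neg (fun h => h3 (h2.mpr h)), add_zero]
      simp only [h5]
  rw [Finset.sum_congr rfl h1, Finset.sum_add_distrib, Finset.sum_ite_eq']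
  have h6 : g * of i ∈ insert g E ↔ g * mk [(i, true)] ∈ E := by
    rw [Finset.mem_insert]
    constructor
    · rintro (h | h)
      · exfalso
        have := mul_eq_left.mp h
        exact of_ne_one i this
      · exact h
    · exact Or.inr
  simp only [h6]
  ring

theorem nb_le {E : Finset (FreeGroup (Fin n))} {g : FreeGroup (Fin n)}
    (hup : ∀ y ∈ E, norm y ≤ norm g) :
    ∑ i : Fin n, ((if g * mk [(i, true)] ∈ E then 1 else 0) + (if g * mk [(i, false)] ∈ E then 1 else 0))
      ≤ 1 := by
  have h1 : ∑ i : Fin n, ((if g * mk [(i, true)] ∈ E then 1 else 0) +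
      (if g * mk [(i, false)] ∈ E then 1 else 0)) =
      ((Finset.univ : Finset (Fin n × Bool)).filter fun p => g * mk [p] ∈ E).card := by
    rw [Finset.card_filter, Fintype.sum_prod_type]
    apply Finset.sum_congr rfl
    intro i _
    rw [Fintype.sum_bool]
  rw [h1, Finset.card_le_one]
  intro p hp q hq
  rw [Finset.mem_filter] at hp hq
  exact unique_letter (hup _ hp.2) (hup _ hq.2)

/-- a nonempty finite set is a forest -/
theorem forest (E : Finset (FreeGroup (Fin n))) (hE : E.Nonempty) : ∑ i, edges E i + 1 ≤ E.card := by
  induction hk : E.card using Nat.strong_induction_on generalizing E with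
  | _ k ih =>
    obtain ⟨g, hg, hmax⟩ := Finset.exists_max_image E norm hE
    have h1 : insert g (E.erase g) = E := Finset.insert_erase hg
    have h2 : g ∉ E.erase g := Finset.notMem_erase g E
    have h3 : ∑ i, edges E i = ∑ i, edges (E.erase g) i + ∑ i : Fin n,
        ((if g * mk [(i, true)] ∈ E.erase g then 1 else 0) +
          (if g * mk [(i, false)] ∈ E.erase g then 1 else 0)) := by
      rw [← Finset.sum_add_distrib]
      apply Finset.sum_congr rfl
      intro i _
      rw [← edges_insert h2, h1]
    have h4 := nb_le (E := E.erase g) (g := g) fun y hy => hmax y (Finset.mem_of_mem_erase hy)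
    have h5 : (E.erase g).card + 1 = E.card := Finset.card_erase_add_one hg
    by_cases hne : (E.erase g).Nonempty
    · have := ih (E.erase g).card (by omega) (E.erase g) hne rfl
      omega
    · rw [Finset.not_nonempty_iff_eq_empty] at hne
      rw [hne] at h3 h5
      have h6 : ∀ i : Fin n, edges (∅ : Finset (FreeGroup (Fin n))) i = 0 := fun i => by simp [edges]
      simp only [h6, Finset.sum_const_zero, Finset.notMem_empty, if_false, add_zero] at h3
      simp at h5
      omega

/-- trees grown from the identity, adding vertices of maximal length -/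
inductive Good : Finset (FreeGroup (Fin n)) → Prop
  | one : Good {1}
  | step {E : Finset (FreeGroup (Fin n))} (hE : Good E) (g : FreeGroup (Fin n)) (p : Fin n × Bool)
      (hg : g ∉ E) (hp : g * mk [p] ∈ E) (hup : ∀ y ∈ E, norm y ≤ norm g) : Good (insert g E)

theorem Good.nonempty {E : Finset (FreeGroup (Fin n))} (h : Good E) : E.Nonempty := by
  cases h with
  | one => exact Finset.singleton_nonempty _
  | step _ g _ _ _ _ => exact ⟨g, Finset.mem_insert_self _ _⟩

theorem Good.card {E : Finset (FreeGroup (Fin n))} (h : Good E) : E.card ≤ ∑ i, edges E i + 1 := by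
  induction h with
  | one => simp
  | @step E hE g p hg hp hup ih =>
    rw [Finset.card_insert_of_notMem hg]
    have h3 : ∑ i, edges (insert g E) i = ∑ i, edges E i + ∑ i : Fin n,
        ((if g * mk [(i, true)] ∈ E then 1 else 0) + (if g * mk [(i, false)] ∈ E then 1 else 0)) := by
      rw [← Finset.sum_add_distrib]
      apply Finset.sum_congr rfl
      intro i _
      rw [← edges_insert hg]
    have h4 : 1 ≤ ∑ i : Fin n,
        ((if g * mk [(i, true)] ∈ E then 1 else 0) + (if g * mk [(i, false)] ∈ E then 1 else 0)) := by
      refine le_trans ?_ (Finset.single_le_sum (f := fun i : Fin n =>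
        ((if g * mk [(i, true)] ∈ E then 1 else 0) + (if g * mk [(i, false)] ∈ E then 1 else 0)))
        (fun _ _ => Nat.zero_le _) (Finset.mem_univ p.1))
      obtain ⟨i, b⟩ := p
      cases b
      · simp only [hp, if_true]; omega
      · simp only [hp, if_true]; omega
    omega

theorem ball_finite (r : ℕ) : {g : FreeGroup (Fin n) | norm g ≤ r}.Finite := by
  have h : {l : List (Fin n × Bool) | l.length ≤ r}.Finite := List.finite_length_le _ _
  exact (h.preimage toWord_injective.injOn)

/-- the ball -/
noncomputable def ball (n r : ℕ) : Finset (FreeGroup (Fin n)) := (ball_finite r).toFinset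

theorem mem_ball {r : ℕ} {g : FreeGroup (Fin n)} : g ∈ ball n r ↔ norm g ≤ r := by
  unfold ball; simp

theorem good_ball (r : ℕ) : Good (ball n r) := by
  induction r with
  | zero =>
    have : ball n 0 = {1} := by
      ext g; rw [mem_ball, Finset.mem_singleton, Nat.le_zero, FreeGroup.norm_eq_zero]
    rw [this]; exact Good.one
  | succ r ih =>
    have key : ∀ D : Finset (FreeGroup (Fin n)), (∀ g ∈ D, norm g = r + 1) → Good (ball n r ∪ D) := by
      intro D
      induction D using Finset.induction_on with
      | empty => intro _; rw [Finset.union_empty]; exact ih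
      | insert g D hgD ihD =>
        intro hD
        have h1 := ihD fun y hy => hD y (Finset.mem_insert_of_mem hy)
        have hgn := hD g (Finset.mem_insert_self _ _)
        obtain ⟨p, hp⟩ := exists_parent hgn
        rw [Finset.union_insert]
        refine Good.step h1 g p ?_ ?_ ?_
        · rw [Finset.mem_union, mem_ball]
          rintro (h | h)
          · omega
          · exact hgD h
        · rw [Finset.mem_union, mem_ball]; exact Or.inl hp
        · intro y hy
          rw [Finset.mem_union, mem_ball] at hy
          rcases hy with h | h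
          · omega
          · rw [hD y (Finset.mem_insert_of_mem h), hgn]
    have h2 : ball n (r + 1) = ball n r ∪ (ball n (r + 1)).filter fun g => norm g = r + 1 := by
      ext g
      rw [Finset.mem_union, Finset.mem_filter, mem_ball, mem_ball]
      omega
    rw [h2]
    exact key _ fun g hg => (Finset.mem_filter.mp hg).2

end Pool.Agent.H238.FGTree
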