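import Pool.Agent.H238.DualGroup

set_option autoImplicit false
set_option linter.unusedSectionVars false

open MeasureTheory Set
open scoped ComplexConjugate

namespace Pool.Agent.H238.PrincipalAlg

open DualGroup

noncomputable section

variable {M : Type} [AddCommGroup M]

/-- the dual of an automorphism -/
def pull (T : M ≃+ M) (x : X M) : X M := ⟨fun m => x.1 (T m), by
  intro a b
  show x.1 (T (a + b)) = _
  rw [map_add]; exact x.2 _ _⟩

/-- the dual of an automorphism, as a homomorphism -/
def pullHom (T : M ≃+ M) : X M →* X M where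
  toFun := pull T
  map_one' := rfl
  map_mul' := fun _ _ => rfl

theorem pull_cont (T : M ≃+ M) : Continuous (pull T) := by
  have h : Continuous (fun x : X M => fun m => x.1 (T m)) :=
    continuous_pi fun m => (continuous_apply (T m)).comp continuous_subtype_val
  exact Continuous.subtype_mk h (fun x => (pull T x).2)

theorem pull_surj (T : M ≃+ M) : Function.Surjective (pull T) := by
  intro x
  refine ⟨pull T.symm x, ?_⟩
  apply Subtype.ext
  funext m
  simp [pull]

theorem pull_mp (T : M ≃+ M) : MeasurePreserving (pull T) (ν M) (ν M) := by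
  have := MonoidHom.measurePreserving (μ := ν M) (ν := ν M) (f := pullHom T) (pull_cont T)
    (pull_surj T) rfl
  exact this

theorem ev2_pull (T : M ≃+ M) (i : M × M) (p : X M × X M) :
    ev2 i (pull T p.1, pull T p.2) = ev2 (T i.1, T i.2) p := by
  simp [pull]

theorem iterate_inj {A : Type} [Zero A] (T : A → A) (hT : Function.Injective T)
    (h : ∀ n : ℕ, 0 < n → ∀ m, T^[n] m = m → m = 0) {m : A} (hm : m ≠ 0) :
    Function.Injective fun n : ℕ => T^[n] m := by
  intro k l hkl
  wlog hlt : k < l generalizing k l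
  · rcases lt_trichotomy k l with h1 | h1 | h1
    · exact this hkl h1
    · exact h1
    · exact (this hkl.symm h1).symm
  exfalso
  have h2 : T^[k] m = T^[k] (T^[l - k] m) := by
    rw [← Function.iterate_add_apply]
    have : k + (l - k) = l := by omega
    rw [this]; exact hkl
  have h3 := (hT.iterate k) h2
  exact hm (h (l - k) (by omega) m h3.symm)

/-- Ergodicity of the diagonal action of one automorphism without non-zero periodic points on the dual. -/
theorem zero_one [Countable M] (T : M ≃+ M)
    (hT : ∀ n : ℕ, 0 < n → ∀ m, (T : M → M)^[n] m = m → m = 0) (E : Set (X M × X M))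
    (hE : MeasurableSet E)
    (hinv : (fun p : X M × X M => (pull T p.1, pull T p.2)) ⁻¹' E =ᵐ[(ν M).prod (ν M)] E) :
    ((ν M).prod (ν M)) E = 0 ∨ ((ν M).prod (ν M)) Eᶜ = 0 := by
  set μ := (ν M).prod (ν M) with hμ
  set S : X M × X M → X M × X M := fun p => (pull T p.1, pull T p.2) with hS
  have hmp : MeasurePreserving S μ μ := (pull_mp T).prod (pull_mp T)
  set F : X M × X M → ℂ := E.indicator (fun _ => 1) with hF
  have hFm : Measurable F := measurable_const.indicator hE
  have hFL : MemLp F 2 μ := (memLp_const (1 : ℂ)).indicator hE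
  have hFS : (fun p => F (S p)) =ᵐ[μ] F := by
    have : (fun p => F (S p)) = (S ⁻¹' E).indicator (fun _ => 1) := by
      ext p; rfl
    rw [this]
    exact indicator_ae_eq_of_ae_eq_set hinv
  set c : M × M → ℂ := fun i => ∫ p, F p * conj (ev2 i p) ∂μ with hc
  have hstep : ∀ i : M × M, c (T i.1, T i.2) = c i := by
    intro i
    have h1 : c i = ∫ p, F (S p) * conj (ev2 i (S p)) ∂μ := by
      show ∫ p, F p * conj (ev2 i p) ∂μ = _
      conv_lhs => rw [← hmp.map_eq]
      rw [integral_map hmp.measurable.aemeasurable]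
      exact ((hFm.mul (Complex.continuous_conj.comp (ev2 i).continuous).measurable)).aestronglyMeasurable
    rw [h1]
    show ∫ p, F p * conj (ev2 (T i.1, T i.2) p) ∂μ = _
    apply integral_congr_ae
    filter_upwards [hFS] with p hp
    rw [hp]
    show _ = F p * conj (ev2 i (pull T p.1, pull T p.2))
    rw [ev2_pull]
  set T2 : M × M → M × M := fun i => (T i.1, T i.2) with hT2
  have hT2inj : Function.Injective T2 := by
    intro i j hij
    have h1 := congrArg Prod.fst hij
    have h2 := congrArg Prod.snd hij
    exact Prod.ext (T.injective h1) (T.injective h2)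
  have hit : ∀ (n : ℕ) (i : M × M), T2^[n] i = ((T : M → M)^[n] i.1, (T : M → M)^[n] i.2) := by
    intro n
    induction n with
    | zero => intro i; rfl
    | succ n ih => intro i; rw [Function.iterate_succ_apply, ih]; rfl
  have hT2per : ∀ n : ℕ, 0 < n → ∀ i : M × M, T2^[n] i = i → i = 0 := by
    intro n hn i hi
    rw [hit] at hi
    exact Prod.ext (hT n hn _ (congrArg Prod.fst hi)) (hT n hn _ (congrArg Prod.snd hi))
  have hcn : ∀ (n : ℕ) (i : M × M), c (T2^[n] i) = c i := by
    intro n
    induction n with
    | zero => intro i; rfl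
    | succ n ih => intro i; rw [Function.iterate_succ_apply, ih]; exact hstep i
  have hcz : ∀ i, i ≠ 0 → c i = 0 := by
    intro i hi
    exact CompactChars.coeff_zero isChars_ev2 hFL (c i) (fun n => T2^[n] i)
      (iterate_inj T2 hT2inj hT2per hi) (fun n => hcn n i)
  obtain ⟨k, hk⟩ := CompactChars.const_of_coeff isChars_ev2 hFL hcz
  by_cases h0 : k = 0
  · left
    have : ∀ᵐ p ∂μ, p ∉ E := by
      filter_upwards [hk] with p hp hpE
      rw [hF, indicator_of_mem hpE, h0] at hp
      exact one_ne_zero hp
    simpa [ae_iff] using this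
  · right
    have : ∀ᵐ p ∂μ, p ∈ E := by
      filter_upwards [hk] with p hp
      by_contra hpE
      rw [hF, indicator_of_notMem hpE] at hp
      exact h0 hp.symm
    exact this

/-- A closed set on which infinitely many characters are trivial is null. -/
theorem null_of_trivial [Countable M] (K : Set (X M)) (hK : IsClosed K) (S : ℕ → M)
    (hS : Function.Injective S) (h : ∀ n, ∀ x ∈ K, x.1 (S n) = 1) : ν M K = 0 := by
  set F : X M → ℂ := K.indicator (fun _ => 1) with hF
  have hFL : MemLp F 2 (ν M) := (memLp_const (1 : ℂ)).indicator hK.measurableSet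
  have h1 : ∀ n, ∫ x, F x * conj (ev (S n) x) ∂(ν M) = ((ν M).real K : ℂ) := by
    intro n
    have : (fun x => F x * conj (ev (S n) x)) = F := by
      ext x
      by_cases hx : x ∈ K
      · rw [ev_apply, h n x hx]; simp
      · rw [hF, indicator_of_notMem hx]; simp
    rw [this, hF, integral_indicator hK.measurableSet]
    simp
  have h2 := CompactChars.coeff_zero isChars_ev hFL _ S hS h1
  have h3 : (ν M).real K = 0 := by exact_mod_cast h2
  rw [measureReal_eq_zero_iff] at h3
  exact h3

/-! ### group ring -/

section ring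

variable {G : Type} [Group G]

theorem supp_arg (s : MonoidAlgebra ℤ G) (h : G) (hh : ∀ n : ℕ, 0 < n → h ^ n ≠ 1) (P : ℤ → Prop)
    (hP0 : ¬ P 0) (hinv : ∀ g, P (s.coeff g) → P (s.coeff (h⁻¹ * g))) : ∀ g, ¬ P (s.coeff g) := by
  intro g hg
  have h1 : ∀ n : ℕ, P (s.coeff ((h⁻¹) ^ n * g)) := by
    intro n
    induction n with
    | zero => simpa using hg
    | succ n ih =>
      have := hinv _ ih
      rw [pow_succ', mul_assoc]
      exact this
  have hinj : Function.Injective fun n : ℕ => (h⁻¹) ^ n * g := by
    intro k l hkl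
    have h2 : (h⁻¹) ^ k = (h⁻¹) ^ l := mul_right_cancel hkl
    rw [inv_pow, inv_pow, inv_inj] at h2
    wlog hlt : k < l generalizing k l
    · rcases lt_trichotomy k l with h3 | h3 | h3
      · exact this hkl h2 h3
      · exact h3
      · exact (this hkl.symm h2.symm h3).symm
    exfalso
    apply hh (l - k) (by omega)
    have h4 : h ^ k * h ^ (l - k) = h ^ k := by
      rw [← pow_add, h2]; congr 1; omega
    exact mul_eq_left.mp h4
  have hfin : (range fun n : ℕ => (h⁻¹) ^ n * g).Finite := by
    apply Set.Finite.subset s.coeff.support.finite_toSet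
    rintro _ ⟨n, rfl⟩
    simp only [Finset.mem_coe, Finsupp.mem_support_iff]
    intro h0
    apply hP0
    rw [← h0]
    exact h1 n
  exact Set.infinite_range_of_injective hinj hfin

theorem single_coeff (h g : G) (s : MonoidAlgebra ℤ G) :
    (MonoidAlgebra.single h 1 * s).coeff g = s.coeff (h⁻¹ * g) := by
  rw [MonoidAlgebra.coeff_single_mul_apply, one_mul]

theorem fixed_zero (s : MonoidAlgebra ℤ G) (h : G) (hh : ∀ n : ℕ, 0 < n → h ^ n ≠ 1)
    (hs : MonoidAlgebra.single h 1 * s = s) : s = 0 := by
  have h1 := supp_arg s h hh (fun z => z ≠ 0) (by simp) (by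
    intro g hg
    rw [← single_coeff, hs]; exact hg)
  ext g
  have := h1 g
  simpa using this

theorem even_of (s u : MonoidAlgebra ℤ G) (h : G) (hh : ∀ n : ℕ, 0 < n → h ^ n ≠ 1)
    (hs : MonoidAlgebra.single h 1 * s - s = (2 : ℤ) • u) : ∀ g, Even (s.coeff g) := by
  intro g
  rw [← Int.not_odd_iff_even]
  apply supp_arg s h hh (fun z => Odd z) (by simp)
  intro g hg
  have h1 := congrArg (fun r => (MonoidAlgebra.coeff r) g) hs
  simp only [MonoidAlgebra.coeff_sub, MonoidAlgebra.coeff_smul, Finsupp.coe_sub, Pi.sub_apply,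
    Finsupp.coe_smul, Pi.smul_apply, single_coeff, smul_eq_mul] at h1
  have h2 : s.coeff (h⁻¹ * g) = s.coeff g + 2 * u.coeff g := by linarith
  rw [h2]
  exact hg.add_even (even_two_mul _)

theorem exists_half (s : MonoidAlgebra ℤ G) (hs : ∀ g, Even (s.coeff g)) :
    ∃ s' : MonoidAlgebra ℤ G, s = (2 : ℤ) • s' := by
  refine ⟨MonoidAlgebra.ofCoeff (s.coeff.mapRange (fun z => z / 2) (by simp)), ?_⟩
  ext g
  simp only [MonoidAlgebra.coeff_smul, Finsupp.coe_smul, Pi.smul_apply, smul_eq_mul,
    Finsupp.mapRange_apply]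
  exact (Int.mul_ediv_cancel' (hs g).two_dvd).symm

end ring

end

end Pool.Agent.H238.PrincipalAlg
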