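import Pool.Agent.H238.PrincipalAlg

set_option autoImplicit false
set_option linter.unusedSectionVars false

open MeasureTheory Set
open scoped ComplexConjugate

namespace Pool.Agent.H238.CompactChars

noncomputable section

/-- product of two character families -/
def prodE {Y₁ Y₂ I₁ I₂ : Type} [TopologicalSpace Y₁] [TopologicalSpace Y₂]
    (e₁ : I₁ → C(Y₁, ℂ)) (e₂ : I₂ → C(Y₂, ℂ)) (i : I₁ × I₂) : C(Y₁ × Y₂, ℂ) :=
  ⟨fun p => e₁ i.1 p.1 * e₂ i.2 p.2,
    ((e₁ i.1).continuous.comp continuous_fst).mul ((e₂ i.2).continuous.comp continuous_snd)⟩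

theorem prodE_apply {Y₁ Y₂ I₁ I₂ : Type} [TopologicalSpace Y₁] [TopologicalSpace Y₂]
    (e₁ : I₁ → C(Y₁, ℂ)) (e₂ : I₂ → C(Y₂, ℂ)) (i : I₁ × I₂) (p : Y₁ × Y₂) :
    prodE e₁ e₂ i p = e₁ i.1 p.1 * e₂ i.2 p.2 := rfl

theorem IsChars.prod {Y₁ Y₂ I₁ I₂ : Type} [TopologicalSpace Y₁] [TopologicalSpace Y₂]
    [MeasurableSpace Y₁] [MeasurableSpace Y₂] {μ₁ : Measure Y₁} {μ₂ : Measure Y₂}
    [IsProbabilityMeasure μ₁] [IsProbabilityMeasure μ₂]
    [AddCommGroup I₁] [AddCommGroup I₂] {e₁ : I₁ → C(Y₁, ℂ)} {e₂ : I₂ → C(Y₂, ℂ)}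
    (h₁ : IsChars μ₁ e₁) (h₂ : IsChars μ₂ e₂) : IsChars (μ₁.prod μ₂) (prodE e₁ e₂) where
  add := by
    intro i j y
    rw [prodE_apply, prodE_apply, prodE_apply, Prod.fst_add, Prod.snd_add, h₁.add, h₂.add]
    ring
  neg := by
    intro i y
    rw [prodE_apply, prodE_apply, Prod.fst_neg, Prod.snd_neg, h₁.neg, h₂.neg, map_mul]
  zero := by
    intro y
    rw [prodE_apply, Prod.fst_zero, Prod.snd_zero, h₁.zero, h₂.zero, one_mul]
  sep := by
    intro y z hyz
    by_cases h : y.1 = z.1
    · have h' : y.2 ≠ z.2 := fun h' => hyz (Prod.ext h h')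
      obtain ⟨i, hi⟩ := h₂.sep _ _ h'
      refine ⟨(0, i), ?_⟩
      rw [prodE_apply, prodE_apply, h₁.zero, h₁.zero, one_mul, one_mul]
      exact hi
    · obtain ⟨i, hi⟩ := h₁.sep _ _ h
      refine ⟨(i, 0), ?_⟩
      rw [prodE_apply, prodE_apply, h₂.zero, h₂.zero, mul_one, mul_one]
      exact hi
  int := by
    intro i hi
    have : (fun p : Y₁ × Y₂ => prodE e₁ e₂ i p) = fun p => e₁ i.1 p.1 * e₂ i.2 p.2 := rfl
    rw [this, integral_prod_mul]
    have h : i.1 ≠ 0 ∨ i.2 ≠ 0 := by
      by_contra hcon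
      push Not at hcon
      exact hi (Prod.ext hcon.1 hcon.2)
    rcases h with h | h
    · rw [h₁.int _ h, zero_mul]
    · rw [h₂.int _ h, mul_zero]

end

end Pool.Agent.H238.CompactChars

namespace Pool.Agent.H238.DualGroup

noncomputable section

instance instMSCircle : MeasurableSpace Circle := borel Circle
instance instBSCircle : BorelSpace Circle := ⟨rfl⟩

/-- A map into a dual group is measurable if all coordinates are. -/
theorem measurable_X {α N : Type} [MeasurableSpace α] [AddCommGroup N] [Countable N] (F : α → X N)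
    (h : ∀ m, Measurable fun a => (F a).1 m) : Measurable F := by
  have hcl : Topology.IsClosedEmbedding (Subtype.val : X N → (N → Circle)) :=
    (dual_closed N).isClosedEmbedding_subtypeVal
  have h1 : MeasurableEmbedding (Subtype.val : X N → (N → Circle)) := hcl.measurableEmbedding
  rw [← h1.measurable_comp_iff]
  exact measurable_pi_iff.mpr h

theorem measurable_coord {N : Type} [AddCommGroup N] (m : N) :
    Measurable fun x : X N => x.1 m :=
  ((continuous_apply m).comp continuous_subtype_val).measurable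

/-- the additive homomorphism attached to a character -/
def hom {N : Type} [AddCommGroup N] (x : X N) : N →+ Additive Circle where
  toFun m := Additive.ofMul (x.1 m)
  map_zero' := by rw [X_zero]; rfl
  map_add' a b := by rw [X_add]; rfl

theorem X_zsmul {N : Type} [AddCommGroup N] (x : X N) (n : ℤ) (m : N) :
    x.1 (n • m) = x.1 m ^ n := by
  have := map_zsmul (hom x) n m
  exact congrArg Additive.toMul this

theorem X_sum {N ι : Type} [AddCommGroup N] (x : X N) (s : Finset ι) (F : ι → N) :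
    x.1 (∑ i ∈ s, F i) = ∏ i ∈ s, x.1 (F i) := by
  have := map_sum (hom x) F s
  exact congrArg Additive.toMul this

end

end Pool.Agent.H238.DualGroup
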